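import Mathlib
import Pool.Agent.Q126.BD.Defs
import Pool.Agent.Q126.BD.Asym
import Pool.Agent.Q126.BD.Weak

/-!
Learning DNF formulas in the distributed model with several examples per machine: `N` machines hold
`t` independent uniform labelled examples each and write on a common blackboard, in any number of
rounds, at most `b` bits per machine. For `O(log s log n) ≤ b ≤ n ^ (1 - β)` and
`log s ≤ n ^ (1 / 2)` the number of machines which are needed for weak learning of DNF formulas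
with `s` gates jumps from `n ^ Ω(log s)` to one when the number `t` of examples per machine passes
`s`, up to a factor `s ^ o(1) log n`.
-/

namespace Pool.Agent.Results.MP_cba12a_lc.BatchLearners

open Pool.Agent.W964.Wd Pool.Agent.Y636.CL Pool.Agent.Q126.BD

/-- 1. If `2 ^ (j + k - 1) + 1 ≤ s`, every randomized interactive protocol with `N` batches of `t`
examples and at most `b` bits per batch outputs, for some DNF formula with at most `s` gates, a
hypothesis of error at most `1 / 2 - γ` with probability at most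
`2 ^ j / (γ ^ 2 C(n - j, k)) + 96 * 4 ^ (j + τ) N (4 b / (n - j)) ^ k
+ N C(t, τ + 1) / 2 ^ (j τ)`, for every `τ`.

2. For `0 < β ≤ 1 / 2`, `0 < a ≤ 1` and large `n` and `s` with `log₂ s ≤ n ^ (1 / 2)`, at most
`n ^ (β a log₂ s / 256)` batches of at most `s ^ (1 - a)` examples with at most `n ^ (1 - β)` bits
each give a hypothesis of error at most `1 / 2 - n ^ (-β a log₂ s / 256)` only with probability at
most `n ^ (-β a log₂ s / 256)`.

3. The same holds for learners with `S` bits of memory that work on one batch at a time and on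
every batch at most `P` times, in any order, if `S P ≤ n ^ (1 - β)`.

4. One batch of `t ≥ 16 s (l log(2n + 1) + log (1 / δ))` examples, `2 ^ l ≥ 4 s`, and a message of
`⌈log₂ ((2n + 1) ^ l + 1)⌉` bits about it give for every DNF formula with at most `s` gates, with
probability at least `(1 - δ) / 2`, a hypothesis of error at most `1 / 2 - 1 / (16 s)`.

5. One batch of `t ≥ (4 s / ε) (l log(2n + 1) + log (1 / δ))` examples, `2 ^ l ≥ s / ε`, and a
message of `⌈log₂ (((2n + 1) ^ l + 1) ^ (s - 1))⌉` bits about it give for every DNF formula with at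
most `s` gates, with probability at least `1 - δ`, a hypothesis of error at most `ε`. -/
theorem result :
    (∀ (n N s b t j k τ : ℕ) (γ : ℝ), 0 < γ → 1 ≤ N → 1 ≤ k → j + k ≤ n → k ≤ 2 * b →
      2 ^ (j + k - 1) + 1 ≤ s →
      ∀ (R : Type) [Fintype R] [Nonempty R] (π : R → Prot N (Fin t → Ex n) (Hy n)),
        (∀ r i, (π r).load i ≤ b) →
        ∃ f : Hy n, IsDnf s f ∧ batchLearnR (fun r => (π r).run) f (1 / 2 - γ)
          ≤ 2 ^ j / (γ ^ 2 * ((n - j).choose k : ℝ))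
            + 96 * 4 ^ (j + τ) * N * (4 * b / (n - j : ℕ)) ^ k
            + N * ((t.choose (τ + 1) : ℝ) / 2 ^ (j * τ))) ∧
    (∀ β a : ℝ, 0 < β → β ≤ 1 / 2 → 0 < a → a ≤ 1 →
      ∃ n₀ s₀ : ℕ, ∀ n s : ℕ, n₀ ≤ n → s₀ ≤ s → Real.logb 2 s ≤ (n : ℝ) ^ (1 / 2 : ℝ) →
        ∀ b t N : ℕ, 1 ≤ N → (b : ℝ) ≤ (n : ℝ) ^ (1 - β) → (t : ℝ) ≤ (s : ℝ) ^ (1 - a) →
        (N : ℝ) ≤ (n : ℝ) ^ (β * a / 256 * Real.logb 2 s) →
        ∀ (R : Type) [Fintype R] [Nonempty R] (π : R → Prot N (Fin t → Ex n) (Hy n)),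
          (∀ r i, (π r).load i ≤ b) →
          ∃ f : Hy n, IsDnf s f ∧
            batchLearnR (fun r => (π r).run) f
              (1 / 2 - (n : ℝ) ^ (-(β * a / 256 * Real.logb 2 s)))
            ≤ (n : ℝ) ^ (-(β * a / 256 * Real.logb 2 s))) ∧
    (∀ β a : ℝ, 0 < β → β ≤ 1 / 2 → 0 < a → a ≤ 1 →
      ∃ n₀ s₀ : ℕ, ∀ n s : ℕ, n₀ ≤ n → s₀ ≤ s → Real.logb 2 s ≤ (n : ℝ) ^ (1 / 2 : ℝ) →
        ∀ S P t N : ℕ, 1 ≤ N → (S : ℝ) * P ≤ (n : ℝ) ^ (1 - β) → (t : ℝ) ≤ (s : ℝ) ^ (1 - a) →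
        (N : ℝ) ≤ (n : ℝ) ^ (β * a / 256 * Real.logb 2 s) →
        ∀ (R : Type) [Fintype R] [Nonempty R]
          (L : R → MemLearner N S P (Fin t → Ex n) (Hy n)),
          ∃ f : Hy n, IsDnf s f ∧
            batchLearnR (fun r => (L r).run) f
              (1 / 2 - (n : ℝ) ^ (-(β * a / 256 * Real.logb 2 s)))
            ≤ (n : ℝ) ^ (-(β * a / 256 * Real.logb 2 s))) ∧
    (∀ (n s l t : ℕ) (δ : ℝ), 1 ≤ s → 0 < δ → 4 * s ≤ 2 ^ l →
      16 * s * (l * Real.log (2 * n + 1) + Real.log (1 / δ)) ≤ t →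
      ∃ π : Bool → Prot 1 (Fin t → Ex n) (Hy n),
        (∀ r j, (π r).load j ≤ Nat.clog 2 ((2 * n + 1) ^ l + 1)) ∧
        (∀ r, (π r).Silent (Nat.clog 2 ((2 * n + 1) ^ l + 1))) ∧
        ∀ f : Hy n, IsDnf s f →
          (1 - δ) / 2 ≤ batchLearnR (fun r => (π r).run) f (1 / 2 - 1 / (16 * s))) ∧
    (∀ (n s l t : ℕ) (ε δ : ℝ), 1 ≤ s → 0 < ε → 0 < δ → s / ε ≤ 2 ^ l →
      4 * s / ε * (l * Real.log (2 * n + 1) + Real.log (1 / δ)) ≤ t →
      ∃ π : Prot 1 (Fin t → Ex n) (Hy n),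
        (∀ j, π.load j ≤ Nat.clog 2 (((2 * n + 1) ^ l + 1) ^ (s - 1))) ∧
        π.Silent (Nat.clog 2 (((2 * n + 1) ^ l + 1) ^ (s - 1))) ∧
        ∀ f : Hy n, IsDnf s f → 1 - δ ≤ batchLearn π.run f ε) :=
  ⟨fun _ _ _ _ _ _ _ _ _ h1 h2 h3 h4 h5 h6 _ _ _ π h7 => dnf_core π h2 h7 h3 h4 h5 h6 h1,
    fun β a h1 h2 h3 h4 => dnf_asym β a h1 h2 h3 h4,
    fun β a h1 h2 h3 h4 => dnf_mem β a h1 h2 h3 h4,
    fun _ _ _ _ _ h1 h2 h3 h4 => dnf_weak h1 h2 h3 h4,
    fun _ _ _ _ _ _ h1 h2 h3 h4 h5 => dnf_up h1 h2 h3 h4 h5⟩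

end Pool.Agent.Results.MP_cba12a_lc.BatchLearners
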