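import Pool.Agent.Q226.LBD.Main

/-!
# Learning DNF formulas with predictions of small degree in the labels

The model: a randomised learner (a finite family of learners, one of which is chosen uniformly) gets
`N` independent uniform labelled examples and outputs an arbitrary hypothesis. The only restriction
is that its mean prediction, the mean value of the `±1`-valued label that the hypothesis gives to a
fresh uniform point `x`, is within mean square distance `ζ < 1` of a real polynomial of degree at
most `D` in the `±1`-valued labels of the examples. The coefficients of this polynomial may be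
arbitrary functions of the points of all examples and of `x`.

Predictions `p` of degree `D = 1` are the linear smoothers: kernel estimators, kernel (ridge)
regression, and the low-degree algorithm of Linial, Mansour and Nisan; the hypothesis `sign p` is
within mean square distance `ζ` of `p` if the mean square error of `p` is at most `ζ`. Degree `D`
contains all sums of statistics which use the labels of at most `D` examples each.

1. Lower bound. If `2 ^ (k - 1) + 1 ≤ s`, then for some DNF formula with at most `s` gates the mean
   error is at least `1 / 2 - (√ζ + (1 + √ζ) √(M / C(n, k))) / 2`, where `M` is the number of sets of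
   at most `D` examples.
2. So for `k ≈ log₂ s`, `2 k ≤ n ^ (β / 2)` and `(N + 1) ^ D ≤ n ^ ((1 - β) k)` the mean error is at
   least `1 / 2 - √ζ / 2 - n ^ (- β k / 4)`: with polynomially many examples the degree `D` must be
   at least a constant times `log s`, and with `D = 1` one needs `n ^ ((1 - o(1)) log₂ s)` examples.
3. For the parities of `k` variables, which are the hard targets, this is sharp up to lower order
   terms for every `D`: some predictions of label degree `D` have the mean square error
   `(C(n, k) - 1) / C(N, D)`.
4. For all DNF formulas and `D = 1` it is sharp up to a constant factor in the exponent for every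
   fixed error `ε`: if `16 s ≤ ε 2 ^ w`, `16 w ≤ ε (d + 1)` and `2 (n + 1) ^ d ≤ ε N`, some learner
   of label degree `1` (with distance `ζ = ε`) has mean error at most `ε` for all DNF formulas with
   at most `s` gates. So `n ^ Θ(log s)` examples are necessary and sufficient for learners of label
   degree `1` and constant error.

Without the restriction `O(s n / ε)` examples are enough, so the restriction is on the way in which
the labels are used.

The proof of the lower bound: for fixed points of the examples the prediction gives a matrix with
rows indexed by the parities of `k` variables and columns indexed by the fresh points, which has rank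
at most `M`; the matrix of the true labels has orthogonal rows. The proof of 4.: long terms are
dropped, and the number of sensitive coordinates of a formula with terms of width `w` is at most `w`
at every satisfied point, which bounds its Fourier weight above `d`.
-/

set_option autoImplicit false

namespace Pool.Agent.Results.MP_cba12a_lc.LabelDegree

open Finset Pool.Agent.Q226.LBD
open Pool.Agent.W964.Wd (IsDnf err)

/-- See above; `cnt N D` is the number of subsets of `Fin N` with at most `D` elements. -/
theorem result :
    -- 1. the lower bound
    (∀ (n N D k s : ℕ) (ζ : ℝ), 1 ≤ k → k ≤ n → 2 ^ (k - 1) + 1 ≤ s → 0 ≤ ζ →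
      ∀ (R : Type) [Fintype R] [Nonempty R] (A : Learner R n N) (p : Prediction n N),
        (∀ X x, LabelDegree D fun y => p X y x) →
        (∀ f : Hyp n, IsDnf s f → dist (meanLabel A) p f ≤ ζ) →
        ∃ f : Hyp n, IsDnf s f ∧
          1 / 2 - (Real.sqrt ζ + (1 + Real.sqrt ζ) * Real.sqrt (cnt N D / n.choose k)) / 2 ≤
            meanErr A f) ∧
    -- 2. the lower bound for large `n`
    (∀ (n N D k s : ℕ) (β ζ : ℝ), β ≤ 2 → 1 ≤ n → 1 ≤ k → 2 * (k : ℝ) ≤ (n : ℝ) ^ (β / 2) →
      2 ^ (k - 1) + 1 ≤ s → ((N : ℝ) + 1) ^ D ≤ (n : ℝ) ^ ((1 - β) * k) → 0 ≤ ζ → ζ ≤ 1 →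
      ∀ (R : Type) [Fintype R] [Nonempty R] (A : Learner R n N) (p : Prediction n N),
        (∀ X x, LabelDegree D fun y => p X y x) →
        (∀ f : Hyp n, IsDnf s f → dist (meanLabel A) p f ≤ ζ) →
        ∃ f : Hyp n, IsDnf s f ∧
          1 / 2 - Real.sqrt ζ / 2 - (n : ℝ) ^ (-(β / 4 * k)) ≤ meanErr A f) ∧
    -- 3. parities of `k` variables, every `D`
    (∀ n N k D : ℕ, D ≤ N → ∃ p : Prediction n N, (∀ X x, LabelDegree D fun y => p X y x) ∧
      ∀ (S : Finset (Fin n)) (f : Hyp n), S.card = k → (∀ x, sg (f x) = ∏ i ∈ S, sg (x i)) →
        mse p f = ((n.choose k : ℝ) - 1) / N.choose D) ∧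
    -- 4. all DNF formulas, `D = 1`
    (∀ (n N s w d : ℕ) (ε : ℝ), 16 * (s : ℝ) ≤ ε * 2 ^ w → 16 * (w : ℝ) ≤ ε * (d + 1) →
      2 * ((n : ℝ) + 1) ^ d ≤ ε * N →
      ∃ (A : Learner Unit n N) (p : Prediction n N), (∀ X x, LabelDegree 1 fun y => p X y x) ∧
        ∀ f : Hyp n, IsDnf s f →
          mse p f ≤ ε ∧ dist (meanLabel A) p f ≤ ε ∧ meanErr A f ≤ ε) := by
  refine ⟨fun n N D k s ζ h1 h2 h3 h4 R _ _ A p hp hd => low h1 h2 h3 h4 A p hp hd,
    fun n N D k s β ζ h1 h2 h3 h4 h5 h6 h7 h8 R _ _ A p hp hd =>
      low_asym h1 h2 h3 h4 h5 h6 h7 h8 A p hp hd,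
    fun n N k D h1 => ⟨parP n N k D, fun X x => parP_degree k D X x, fun S f hS hf => ?_⟩,
    fun n N s w d ε h1 h2 h3 => ⟨signLearner (ker n N d), ker n N d,
      fun X x => ker_degree d X x, fun f hf => ?_⟩⟩
  · have h2 : f = tg S := by
      funext x
      have h3 : sg (f x) = sg (tg S x) := by rw [hf x, sg_tg]; rfl
      revert h3
      cases f x <;> cases tg S x <;> simp [sg] <;> norm_num
    rw [h2]
    exact parP_mse h1 hS
  · have h4 := up_dnf h1 h2 h3 hf
    exact ⟨h4, (sign_dist _ f).trans h4, (sign_err _ f).trans h4⟩

end Pool.Agent.Results.MP_cba12a_lc.LabelDegree
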