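import Mathlib
import Pool.Agent.Q126.LP.Defs
import Pool.Agent.Q126.LP.DAsym

/-!
Learning DNF formulas with local differential privacy: `N` users hold `t` independent uniform
labelled examples and private random bits each and write on a common blackboard, in any number of
rounds. The whole communication has to be private, with parameter `ε`, with respect to all `t`
examples of a user. For `O(log s log n) ≤ ε ≤ n ^ (1 - β)` and `log s ≤ n ^ (1 / 2)` the number of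
users which are needed for weak learning of DNF formulas with `s` gates jumps from `n ^ Ω(log s)`
to one when the number `t` of examples per user passes `s`, up to a factor `s ^ o(1) log n`.
-/

namespace Pool.Agent.Results.MP_cba12a_lc.LocalPrivacy

open Pool.Agent.W964.Wd Pool.Agent.Y636.CL Pool.Agent.Q126.LP

/-- 1. If `2 ^ (j + k - 1) + 1 ≤ s` and `k ≤ 2 ε`, every fully interactive protocol (with public
and private randomness) with `N` users, each with `t` examples, that is `ε`-private for every user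
outputs, for some DNF formula with at most `s` gates, a hypothesis of error at most `1 / 2 - γ` with
probability at most `2 ^ j / (γ ^ 2 C(n - j, k)) + 96 * 4 ^ (j + τ) N (6 ε / (n - j)) ^ k
+ N C(t, τ + 1) / 2 ^ (j τ)`, for every `τ`.

2. For `0 < β ≤ 1 / 2`, `0 < a ≤ 1` and large `n` and `s` with `log₂ s ≤ n ^ (1 / 2)`, at most
`n ^ (β a log₂ s / 256)` users with at most `s ^ (1 - a)` examples each get a hypothesis of error at
most `1 / 2 - n ^ (-β a log₂ s / 256)` only with probability at most `n ^ (-β a log₂ s / 256)`, if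
`ε ≤ n ^ (1 - β)`.

3. One user with `t ≥ 16 s (l log(2n + 1) + log (1 / δ))` examples, `2 ^ l ≥ 4 s`, and a message of
`b = ⌈log₂ ((2n + 1) ^ l + 1)⌉` bits with privacy parameter `ε ≥ log Q + b log 2` give for every
DNF formula with at most `s` gates, with probability at least `(1 - δ - 1 / Q) / 2`, a hypothesis of
error at most `1 / 2 - 1 / (16 s)`.

4. One user with `t ≥ (4 s / η) (l log(2n + 1) + log (1 / δ))` examples, `2 ^ l ≥ s / η`, and a
message of `b = ⌈log₂ (((2n + 1) ^ l + 1) ^ (s - 1))⌉` bits with privacy parameter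
`ε ≥ log Q + b log 2` give for every DNF formula with at most `s` gates, with probability at least
`1 - δ - 1 / Q`, a hypothesis of error at most `η`. -/
theorem result :
    (∀ (n N s t j k τ : ℕ) (γ ε : ℝ), 0 < γ → 1 ≤ N → 1 ≤ k → j + k ≤ n → k ≤ 2 * ε →
      2 ^ (j + k - 1) + 1 ≤ s →
      ∀ (R Ω : Type) [Fintype R] [Nonempty R] [Fintype Ω] [Nonempty Ω]
        (π : R → Prot N ((Fin t → Ex n) × Ω) (Hy n)), (∀ r, LocallyPrivate ε (π r)) →
        ∃ f : Hy n, IsDnf s f ∧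
          privProbR (fun r => (π r).run) f (fun h => err f h ≤ 1 / 2 - γ)
          ≤ 2 ^ j / (γ ^ 2 * ((n - j).choose k : ℝ))
            + 96 * 4 ^ (j + τ) * N * (6 * ε / (n - j : ℕ)) ^ k
            + N * ((t.choose (τ + 1) : ℝ) / 2 ^ (j * τ))) ∧
    (∀ β a : ℝ, 0 < β → β ≤ 1 / 2 → 0 < a → a ≤ 1 →
      ∃ n₀ s₀ : ℕ, ∀ n s : ℕ, n₀ ≤ n → s₀ ≤ s → Real.logb 2 s ≤ (n : ℝ) ^ (1 / 2 : ℝ) →
        ∀ (t N : ℕ) (ε : ℝ), 1 ≤ N → ε ≤ (n : ℝ) ^ (1 - β) → (t : ℝ) ≤ (s : ℝ) ^ (1 - a) →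
        (N : ℝ) ≤ (n : ℝ) ^ (β * a / 256 * Real.logb 2 s) →
        ∀ (R Ω : Type) [Fintype R] [Nonempty R] [Fintype Ω] [Nonempty Ω]
          (π : R → Prot N ((Fin t → Ex n) × Ω) (Hy n)), (∀ r, LocallyPrivate ε (π r)) →
          ∃ f : Hy n, IsDnf s f ∧
            privProbR (fun r => (π r).run) f
              (fun h => err f h ≤ 1 / 2 - (n : ℝ) ^ (-(β * a / 256 * Real.logb 2 s)))
            ≤ (n : ℝ) ^ (-(β * a / 256 * Real.logb 2 s))) ∧
    (∀ (n s l t Q : ℕ) (δ ε : ℝ), 1 ≤ s → 0 < δ → 1 ≤ Q → 4 * s ≤ 2 ^ l →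
      16 * s * (l * Real.log (2 * n + 1) + Real.log (1 / δ)) ≤ t →
      Real.log Q + (Nat.clog 2 ((2 * n + 1) ^ l + 1) : ℕ) * Real.log 2 ≤ ε →
      ∃ π : Bool → Prot 1 ((Fin t → Ex n) ×
          ((Fin (Nat.clog 2 ((2 * n + 1) ^ l + 1)) → Bool) × Fin Q)) (Hy n),
        (∀ r, LocallyPrivate ε (π r)) ∧
        (∀ r j, (π r).load j ≤ Nat.clog 2 ((2 * n + 1) ^ l + 1)) ∧
        ∀ f : Hy n, IsDnf s f → (1 - δ - 1 / Q) / 2 ≤
          privProbR (fun r => (π r).run) f (fun h => err f h ≤ 1 / 2 - 1 / (16 * s))) ∧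
    (∀ (n s l t Q : ℕ) (η δ ε : ℝ), 1 ≤ s → 0 < η → 0 < δ → 1 ≤ Q → s / η ≤ 2 ^ l →
      4 * s / η * (l * Real.log (2 * n + 1) + Real.log (1 / δ)) ≤ t →
      Real.log Q + (Nat.clog 2 (((2 * n + 1) ^ l + 1) ^ (s - 1)) : ℕ) * Real.log 2 ≤ ε →
      ∃ π : Prot 1 ((Fin t → Ex n) ×
          ((Fin (Nat.clog 2 (((2 * n + 1) ^ l + 1) ^ (s - 1))) → Bool) × Fin Q)) (Hy n),
        LocallyPrivate ε π ∧
        (∀ j, π.load j ≤ Nat.clog 2 (((2 * n + 1) ^ l + 1) ^ (s - 1))) ∧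
        ∀ f : Hy n, IsDnf s f → 1 - δ - 1 / Q ≤ privProb π.run f (fun h => err f h ≤ η)) :=
  ⟨fun _ _ _ _ _ _ _ _ _ h1 h2 h3 h4 h5 h6 _ _ _ _ _ _ π h7 =>
      dpriv_core π h2 h7 h3 h4 h5 h6 h1,
    fun β a h1 h2 h3 h4 => dpriv_asym β a h1 h2 h3 h4,
    fun _ _ _ _ _ _ _ h1 h2 h3 h4 h5 h6 => dpriv_weak h1 h2 h3 h4 h5 h6,
    fun _ _ _ _ _ _ _ _ h1 h2 h3 h4 h5 h6 h7 => dpriv_up h1 h2 h3 h4 h5 h6 h7⟩

end Pool.Agent.Results.MP_cba12a_lc.LocalPrivacy
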