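import Pool.Agent.H532R2.IntPoly
import Pool.Agent.Q216.RK.All
import Pool.Agent.Q14.RK.Leaf2

/-!
# Read-k DNF formulas are learnable from noisy uniform random examples

For every constant `k` there is a polynomial-time algorithm (a Turing machine in the sense of
Mathlib) that learns, under the uniform distribution and from random examples only, the DNF
formulas (with negated variables) in which every variable occurs in at most `k` terms. The labels
may be changed by random classification noise of any rate `p / q` below one half, and the target
may differ from the DNF formula on a polynomially small fraction of the cube.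
-/

namespace Pool.Agent.Results.MP_cba12a_lc.ReadKFormulas

open Pool.Agent.NPC

/-- Terms (conjunctions of literals) in `n` variables: `T i = some b` means that the literal
`x_i = b` occurs in the term, `T i = none` that the variable `x_i` does not occur in it. -/
abbrev Term (n : ℕ) := Fin n → Option Bool

/-- The value at `x` of the DNF formula with the set of terms `F`. -/
def value {n : ℕ} (F : Finset (Term n)) (x : Fin n → Bool) : Bool :=
  decide (∃ T ∈ F, ∀ i b, T i = some b → x i = b)

/-- Every variable occurs in at most `k` terms. -/
def ReadK (k : ℕ) {n : ℕ} (F : Finset (Term n)) : Prop :=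
  ∀ i, (F.filter (fun T => T i ≠ none)).card ≤ k

/-- The sample given by `ω`: the `j`-th example is the point `(ω j).1` with the label
`f ((ω j).1)`, which is changed when `(ω j).2 < p`. For uniformly random `ω` the points are
independent and uniform and each label is changed with probability `p / q`, independently. -/
def sample {n q N : ℕ} (p : ℕ) (f : (Fin n → Bool) → Bool)
    (ω : Fin N → (Fin n → Bool) × Fin q) : List (List Bool × Bool) :=
  List.ofFn (fun j => (List.ofFn (ω j).1, f (ω j).1 ^^ decide (((ω j).2 : ℕ) < p)))

/-- The value at `x` of a hypothesis: a hypothesis is a DNF formula given as a list of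
conjunctions, a conjunction is a list of literals, and `(i, b)` is the literal `x_i = b`. -/
def hypValue {n : ℕ} (H : List (List (ℕ × Bool))) (x : Fin n → Bool) : Bool :=
  H.any (fun K => K.all (fun l => decide ((List.ofFn x)[l.1]? = some l.2)))

/-- The number of points where the hypothesis and the target differ. -/
def errors {n : ℕ} (f : (Fin n → Bool) → Bool) (H : List (List (ℕ × Bool))) : ℕ :=
  (Finset.univ.filter (fun x => hypValue H x ≠ f x)).card

/-- For every `k` there are a polynomial-time algorithm `A` and an exponent `c` such that for all
numbers of variables `n`, accuracies `1 / e`, confidences `1 - 2 ^ (-d)` and noise rates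
`p / q < 1 / 2` with `q / (q - 2 p) ≤ w`, from `N ≥ (n + e + d + w + 2) ^ c` examples of a target
`f` which differs from a read-`k` DNF formula on at most the fraction `(n + e + 2) ^ (-c)` of the
cube, `A` finds with probability at least `1 - 2 ^ (-d)` a DNF formula with error at most `1 / e`
with respect to `f`. -/
theorem result (k : ℕ) :
    ∃ (A : List Unit × (ℕ × ℕ) × List (List Bool × Bool) → List (List (ℕ × Bool))) (c : ℕ),
      Nonempty (Turing.TM2ComputableInPolyTime
        (bits : List Unit × (ℕ × ℕ) × List (List Bool × Bool) → List Bool)
        (bits : List (List (ℕ × Bool)) → List Bool) A) ∧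
      ∀ n e d w p q N : ℕ, 1 ≤ e → 2 * p < q → q ≤ w * (q - 2 * p) →
        (n + e + d + w + 2) ^ c ≤ N →
        ∀ (F : Finset (Term n)) (f : (Fin n → Bool) → Bool), ReadK k F →
          (n + e + 2) ^ c * (Finset.univ.filter (fun x => f x ≠ value F x)).card ≤ 2 ^ n →
          2 ^ d * (Finset.univ.filter (fun ω : Fin N → (Fin n → Bool) × Fin q =>
            2 ^ n < e * errors f (A (List.replicate e (), (p, q), sample p f ω)))).card ≤
            (2 ^ n * q) ^ N := by
  obtain ⟨A, c, hA, h⟩ := Pool.Agent.Q216.RK.main_of_leaf
    (Pool.Agent.Q14.RK.t_LEAF2 Pool.Agent.Q216.RK.all_STAT Pool.Agent.Q216.RK.all_SENS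
      Pool.Agent.Q216.RK.all_ISO Pool.Agent.Q216.RK.all_BRI) k
  refine ⟨A, c, Pool.Agent.NPC.H532.Poly.toTM hA, ?_⟩
  intro n e d w p q N he hpq hw hN F f hF hf
  have hval : ∀ x, Pool.Agent.Q216.RK.on F x = value F x := by
    intro x
    unfold Pool.Agent.Q216.RK.on value Pool.Agent.Q216.RK.satT
    simp
  have h1 := h n e d w p q N he hpq hw hN F hF f (by simpa only [hval] using hf)
  have he0 : (0 : ℝ) < e := by exact_mod_cast he
  have hiff : ∀ H : List (List (ℕ × Bool)), (1 : ℝ) / e < Pool.Agent.Q216.RK.errf f H ↔
      2 ^ n < e * errors f H := by
    intro H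
    have h2 : Pool.Agent.Q216.RK.errf f H = (errors f H : ℝ) / 2 ^ n := by
      unfold Pool.Agent.Q216.RK.errf Pool.Agent.Q216.RK.Ex errors
      congr 1
      have h3 : ∀ x : Fin n → Bool, (if Pool.Agent.Q216.RK.evalH H x = f x then (0 : ℝ) else 1) =
          if hypValue H x ≠ f x then 1 else 0 := by
        intro x
        have : Pool.Agent.Q216.RK.evalH H x = hypValue H x := rfl
        rw [this]
        by_cases hx : hypValue H x = f x <;> simp [hx]
      rw [Finset.sum_congr rfl fun x _ => h3 x, Finset.sum_boole]
    rw [h2, div_lt_div_iff₀ he0 (by positivity), one_mul, mul_comm (errors f H : ℝ)]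
    constructor
    · intro h; exact_mod_cast h
    · intro h; exact_mod_cast h
  rw [Nat.card_eq_fintype_card] at h1
  refine le_trans (Nat.mul_le_mul_left _ (le_of_eq ?_)) h1
  rw [Fintype.card_subtype]
  congr 1
  ext ω
  simp only [Finset.mem_filter, Finset.mem_univ, true_and]
  exact (hiff _).symm

end Pool.Agent.Results.MP_cba12a_lc.ReadKFormulas
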